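import Mathlib
import Pool.Agent.MP_b9d149_co.Defs
import Pool.Agent.Mg.Fb9d149.Gbb1a23

namespace Pool.Agent.Results.MP_b9d149_co.AllFanStructures

open Pool.Agent.MP_b9d149_co

/-- Every fan structure on the Bergman fan of a loopless matroid of rank `r` is
`(r - ℓ)`-connected through codimension one, `ℓ` the dimension of its lineality space. -/
theorem result (n : ℕ) (M : Matroid (Fin n)) (hE : M.E = Set.univ) (hM : M.Loopless)
    (r : ℕ) (hr : M.eRank = r) (S : Set (PointedCone ℝ (Fin n → ℝ)))
    (hS : IsPolyhedralFan S) (hsupp : fanSupport S = bergmanFan M) :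
    ConnectedThroughCodimOne S r (r - Module.finrank ℝ (linealitySpace S)) :=
  main hE hr hS hsupp

end Pool.Agent.Results.MP_b9d149_co.AllFanStructures
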